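import Mathlib

/-!
Signed 2-spanning sets in cyclic groups (helper29): for `n ≤ 10 a²` three arithmetic progressions
with `a + 1` terms and the differences `1`, `a` and `a + 1` form an exact 2-spanning set of `Z_n`.
-/

set_option autoImplicit false

namespace Pool.Agent.T6.H29.SG

open Finset

variable {n : ℕ}

/-- `g` is a signed sum of `h` elements of `A` -/
def Sgn (A : Finset (ZMod n)) (h : ℕ) (g : ZMod n) : Prop :=
  ∃ l : ZMod n → ℤ, ∑ a ∈ A, |l a| = h ∧ g = ∑ a ∈ A, (l a : ZMod n) * a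

lemma sum_single {A : Finset (ZMod n)} {u : ZMod n} (hu : u ∈ A) :
    ∑ a ∈ A, (if a = u then (1 : ℤ) else 0) = 1 := by
  rw [Finset.sum_ite_eq' A u]; simp [hu]

lemma sum_single' {A : Finset (ZMod n)} {u : ZMod n} (hu : u ∈ A) :
    ∑ a ∈ A, ((if a = u then (1 : ℤ) else 0 : ℤ) : ZMod n) * a = u := by
  have : ∀ a ∈ A, ((if a = u then (1 : ℤ) else 0 : ℤ) : ZMod n) * a = if a = u then a else 0 := by
    intro a _; split_ifs <;> simp
  rw [Finset.sum_congr rfl this, Finset.sum_ite_eq' A u]; simp [hu]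

lemma add_mem {A : Finset (ZMod n)} {u v : ZMod n} (hu : u ∈ A) (hv : v ∈ A) :
    Sgn A 2 (u + v) := by
  refine ⟨fun a => (if a = u then 1 else 0) + (if a = v then 1 else 0), ?_, ?_⟩
  · have : ∀ a ∈ A, |((if a = u then (1 : ℤ) else 0) + (if a = v then 1 else 0))| =
        (if a = u then 1 else 0) + (if a = v then 1 else 0) := by
      intro a _; split_ifs <;> simp
    rw [Finset.sum_congr rfl this, Finset.sum_add_distrib, sum_single hu, sum_single hv]
    norm_num
  · simp only [Int.cast_add, add_mul, Finset.sum_add_distrib]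
    rw [sum_single' hu, sum_single' hv]

lemma sub_mem {A : Finset (ZMod n)} {u v : ZMod n} (hu : u ∈ A) (hv : v ∈ A) (huv : u ≠ v) :
    Sgn A 2 (u - v) := by
  refine ⟨fun a => (if a = u then 1 else 0) - (if a = v then 1 else 0), ?_, ?_⟩
  · have : ∀ a ∈ A, |((if a = u then (1 : ℤ) else 0) - (if a = v then 1 else 0))| =
        (if a = u then 1 else 0) + (if a = v then 1 else 0) := by
      intro a _
      by_cases h1 : a = u
      · by_cases h2 : a = v
        · exact absurd (h1.symm.trans h2) huv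
        · simp [h1, huv]
      · by_cases h2 : a = v
        · simp [h2, Ne.symm huv]
        · simp [h1, h2]
    rw [Finset.sum_congr rfl this, Finset.sum_add_distrib, sum_single hu, sum_single hv]
    norm_num
  · simp only [Int.cast_sub, sub_mul, Finset.sum_sub_distrib]
    rw [sum_single' hu, sum_single' hv]

lemma neg_mem {A : Finset (ZMod n)} {h : ℕ} {g : ZMod n} (hg : Sgn A h g) : Sgn A h (-g) := by
  obtain ⟨l, h1, h2⟩ := hg
  refine ⟨fun a => -l a, ?_, ?_⟩
  · simpa using h1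
  · rw [h2]; simp

/-- the first progression -/
def P (n a : ℕ) (x : ℤ) : ZMod n := (((n / 2 : ℕ) : ℤ) + (a : ℤ) ^ 2 + x : ℤ)
/-- the second progression -/
def Q (n a : ℕ) (y : ℤ) : ZMod n := ((a : ℤ) ^ 2 + a * y : ℤ)
/-- the third progression -/
def D (n a : ℕ) (z : ℤ) : ZMod n := (((n / 2 : ℕ) : ℤ) - (a : ℤ) ^ 2 + (a + 1) * z : ℤ)

/-- the set -/
noncomputable def S (n a : ℕ) : Finset (ZMod n) := by
  classical
  exact ((range (a + 1)).image fun x : ℕ => P n a (x : ℤ)) ∪ ((range (a + 1)).image fun x : ℕ => Q n a (x : ℤ)) ∪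
    ((range (a + 1)).image fun x : ℕ => D n a (x : ℤ))

lemma card_S (n a : ℕ) : (S n a).card ≤ 3 * (a + 1) := by
  classical
  unfold S
  refine (card_union_le _ _).trans ?_
  have h1 := card_union_le ((range (a + 1)).image fun x : ℕ => P n a (x : ℤ))
    ((range (a + 1)).image fun x : ℕ => Q n a (x : ℤ))
  have h2 : ((range (a + 1)).image fun x : ℕ => P n a (x : ℤ)).card ≤ a + 1 :=
    card_image_le.trans (by simp)
  have h3 : ((range (a + 1)).image fun x : ℕ => Q n a (x : ℤ)).card ≤ a + 1 :=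
    card_image_le.trans (by simp)
  have h4 : ((range (a + 1)).image fun x : ℕ => D n a (x : ℤ)).card ≤ a + 1 :=
    card_image_le.trans (by simp)
  omega

lemma mem_P {n a : ℕ} {x : ℤ} (h0 : 0 ≤ x) (h1 : x ≤ a) : P n a x ∈ S n a := by
  classical
  unfold S
  obtain ⟨k, rfl⟩ := Int.eq_ofNat_of_zero_le h0
  refine mem_union_left _ (mem_union_left _ (mem_image.2 ⟨k, mem_range.2 ?_, rfl⟩))
  omega

lemma mem_Q {n a : ℕ} {x : ℤ} (h0 : 0 ≤ x) (h1 : x ≤ a) : Q n a x ∈ S n a := by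
  classical
  unfold S
  obtain ⟨k, rfl⟩ := Int.eq_ofNat_of_zero_le h0
  refine mem_union_left _ (mem_union_right _ (mem_image.2 ⟨k, mem_range.2 ?_, rfl⟩))
  omega

lemma mem_D {n a : ℕ} {x : ℤ} (h0 : 0 ≤ x) (h1 : x ≤ a) : D n a x ∈ S n a := by
  classical
  unfold S
  obtain ⟨k, rfl⟩ := Int.eq_ofNat_of_zero_le h0
  refine mem_union_right _ (mem_image.2 ⟨k, mem_range.2 ?_, rfl⟩)
  omega

lemma cast_eq {n : ℕ} {u v : ℤ} (k : ℤ) (h : v - u = n * k) : (u : ZMod n) = (v : ZMod n) := by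
  rw [ZMod.intCast_eq_intCast_iff_dvd_sub]
  exact ⟨k, h⟩

/-- division with remainder -/
lemma dm (t b : ℤ) (hb : 0 < b) (ht : 0 ≤ t) :
    ∃ q r : ℤ, t = b * q + r ∧ 0 ≤ r ∧ r < b ∧ 0 ≤ q := by
  refine ⟨t / b, t % b, (Int.mul_ediv_add_emod t b).symm, Int.emod_nonneg _ hb.ne',
    Int.emod_lt_of_pos _ hb, Int.ediv_nonneg ht hb.le⟩

/-- the half of the group -/
theorem half {n a : ℕ} (ha : 1 ≤ a) (hn0 : 0 < n) (hn : n ≤ 10 * a ^ 2) {N : ℤ} (hN0 : 0 ≤ N)
    (hN : N ≤ (n / 2 : ℕ)) : Sgn (S n a) 2 (N : ZMod n) := by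
  obtain ⟨r, hr, hr0, hr1⟩ : ∃ r : ℤ, (n : ℤ) = 2 * ((n / 2 : ℕ) : ℤ) + r ∧ 0 ≤ r ∧ r ≤ 1 := by
    refine ⟨((n % 2 : ℕ) : ℤ), by omega, by omega, by omega⟩
  set h : ℤ := ((n / 2 : ℕ) : ℤ) with hh
  have hA1 : (1 : ℤ) ≤ a := by exact_mod_cast ha
  have hnA : (n : ℤ) ≤ 10 * (a : ℤ) ^ 2 := by exact_mod_cast hn
  have hn0' : (0 : ℤ) < n := by exact_mod_cast hn0
  set b : ℤ := (a : ℤ) with hb
  have hne : ∀ M : ℤ, 0 < M → M ≤ h → (M : ZMod n) ≠ 0 := by
    intro M h1 h2 h3
    rw [ZMod.intCast_zmod_eq_zero_iff_dvd] at h3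
    have := Int.le_of_dvd h1 h3
    omega
  by_cases c1 : N ≤ b ^ 2 + 2 * b - 1
  · -- P + D
    obtain ⟨z, x, h1, h2, h3, h4⟩ := dm (N + r) (b + 1) (by linarith) (by linarith)
    have hz : z ≤ b := by
      by_contra hcon
      push Not at hcon
      nlinarith
    have e : (N : ZMod n) = P n a x + D n a z := by
      unfold P D
      rw [← Int.cast_add]
      refine cast_eq 1 ?_
      rw [← hh, ← hb]
      linarith
    rw [e]
    exact add_mem (mem_P h2 (by omega)) (mem_D h4 hz)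
  push Not at c1
  have hNpos : 0 < N := by nlinarith
  by_cases c2 : N ≤ 2 * b ^ 2 + b
  · -- P - D
    obtain ⟨z, x, h1, h2, h3, h4⟩ := dm (2 * b ^ 2 + b - N) (b + 1) (by linarith) (by linarith)
    have hz : z ≤ b := by
      by_contra hcon
      push Not at hcon
      nlinarith
    have e : (N : ZMod n) = P n a (b - x) - D n a z := by
      unfold P D
      rw [← Int.cast_sub]
      refine cast_eq 0 ?_
      rw [← hh, ← hb]
      linarith
    have hN' := hne N hNpos hN
    rw [e] at hN' ⊢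
    exact sub_mem (mem_P (by omega) (by omega)) (mem_D h4 hz) (sub_ne_zero.1 hN')
  push Not at c2
  by_cases c3 : N ≤ h - 2 * b ^ 2
  · -- - (P + Q)
    obtain ⟨y, x, h1, h2, h3, h4⟩ := dm (h + r - 2 * b ^ 2 - N) b (by linarith) (by linarith)
    have hy : y ≤ b := by
      by_contra hcon
      push Not at hcon
      nlinarith
    have e : (N : ZMod n) = -(P n a x + Q n a y) := by
      unfold P Q
      rw [← Int.cast_add, ← Int.cast_neg]
      refine cast_eq (-1) ?_
      rw [← hh, ← hb]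
      linarith
    rw [e]
    exact neg_mem (add_mem (mem_P h2 (by omega)) (mem_Q h4 hy))
  push Not at c3
  by_cases c4 : N ≤ h - b ^ 2
  · -- the parallelograms
    obtain ⟨s, z', h1, h2, h3, h4⟩ := dm (N - (h - 2 * b ^ 2) - 1) b (by linarith) (by linarith)
    obtain ⟨z, hz⟩ : ∃ z, z = z' + 1 := ⟨_, rfl⟩
    have hs : s ≤ b - 1 := by
      by_contra hcon
      push Not at hcon
      nlinarith
    by_cases hsz : s ≤ z
    · have e : (N : ZMod n) = D n a z - Q n a (z - s) := by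
        unfold Q D
        rw [← Int.cast_sub]
        refine cast_eq 0 ?_
        rw [← hh, ← hb]
        subst hz
        linarith
      have hN' := hne N hNpos hN
      rw [e] at hN' ⊢
      exact sub_mem (mem_D (by omega) (by omega)) (mem_Q (by omega) (by omega)) (sub_ne_zero.1 hN')
    · push Not at hsz
      have e : (N : ZMod n) = -(Q n a (b - 1 - s + z - r) + D n a (b + r - z)) := by
        unfold Q D
        rw [← Int.cast_add, ← Int.cast_neg]
        refine cast_eq (-1) ?_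
        rw [← hh, ← hb]
        subst hz
        linarith
      rw [e]
      exact neg_mem (add_mem (mem_Q (by omega) (by omega)) (mem_D (by omega) (by omega)))
  push Not at c4
  -- P - Q
  obtain ⟨y, x, h1, h2, h3, h4⟩ := dm (h - N + b - 1) b (by linarith) (by linarith)
  have hy : y ≤ b := by
    by_contra hcon
    push Not at hcon
    nlinarith
  have e : (N : ZMod n) = P n a (b - 1 - x) - Q n a y := by
    unfold P Q
    rw [← Int.cast_sub]
    refine cast_eq 0 ?_
    rw [← hh, ← hb]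
    linarith
  have hN' := hne N hNpos hN
  rw [e] at hN' ⊢
  exact sub_mem (mem_P (by omega) (by omega)) (mem_Q h4 hy) (sub_ne_zero.1 hN')

/-- the set `S` is exact 2-spanning -/
theorem span {n a : ℕ} (ha : 1 ≤ a) (hn0 : 0 < n) (hn : n ≤ 10 * a ^ 2) (g : ZMod n) :
    Sgn (S n a) 2 g := by
  have : NeZero n := ⟨hn0.ne'⟩
  have hg : ((g.val : ℤ) : ZMod n) = g := by simp
  by_cases h : g.val ≤ n / 2
  · have := half ha hn0 hn (N := (g.val : ℤ)) (by positivity) (by exact_mod_cast h)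
    rwa [hg] at this
  · push Not at h
    have hlt := ZMod.val_lt g
    have := half ha hn0 hn (N := (n : ℤ) - g.val) (by omega) (by omega)
    have h2 := neg_mem this
    rw [Int.cast_sub, hg] at h2
    simpa using h2

/-- small exact 2-spanning sets exist -/
theorem small {n : ℕ} (hn0 : 0 < n) : ∃ A : Finset (ZMod n),
    (A.card : ℝ) ≤ 3 * Real.sqrt (n / 10) + 6 ∧ ∀ g, Sgn A 2 g := by
  set a : ℕ := ⌈Real.sqrt (n / 10)⌉₊ with ha
  have hpos : 0 < Real.sqrt ((n : ℝ) / 10) := Real.sqrt_pos.2 (by positivity)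
  have h1 : Real.sqrt ((n : ℝ) / 10) ≤ a := Nat.le_ceil _
  have h2 : (a : ℝ) < Real.sqrt ((n : ℝ) / 10) + 1 := Nat.ceil_lt_add_one hpos.le
  have ha1 : 1 ≤ a := Nat.ceil_pos.2 hpos
  have hn : n ≤ 10 * a ^ 2 := by
    have h3 : (n : ℝ) / 10 ≤ (a : ℝ) ^ 2 := by
      rw [← Real.sq_sqrt (show (0 : ℝ) ≤ (n : ℝ) / 10 by positivity)]
      exact pow_le_pow_left₀ hpos.le h1 2
    have h4 : (n : ℝ) ≤ 10 * (a : ℝ) ^ 2 := by linarith
    exact_mod_cast h4
  refine ⟨S n a, ?_, span ha1 hn0 hn⟩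
  have h5 : ((S n a).card : ℝ) ≤ 3 * ((a : ℝ) + 1) := by exact_mod_cast card_S n a
  linarith

/-- the bound implies a constant smaller than one -/
theorem asym {f : ℕ → ℕ} (hf : ∀ n : ℕ, 0 < n → (f n : ℝ) ≤ 3 * Real.sqrt (n / 10) + 6)
    (c : ℝ) (hc : 3 / Real.sqrt 10 < c) :
    ∀ᶠ n : ℕ in Filter.atTop, (f n : ℝ) ≤ c * Real.sqrt n := by
  have hd : 0 < c - 3 / Real.sqrt 10 := by linarith
  have ht : Filter.Tendsto (fun n : ℕ => (c - 3 / Real.sqrt 10) * Real.sqrt n) Filter.atTop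
      Filter.atTop :=
    (Real.tendsto_sqrt_atTop.comp tendsto_natCast_atTop_atTop).const_mul_atTop hd
  filter_upwards [ht.eventually_ge_atTop 6, Filter.eventually_gt_atTop 0] with n h1 h2
  refine (hf n h2).trans ?_
  rw [Real.sqrt_div (Nat.cast_nonneg n)]
  have : 3 * (Real.sqrt (n : ℝ) / Real.sqrt 10) = 3 / Real.sqrt 10 * Real.sqrt n := by ring
  rw [this]
  nlinarith

end Pool.Agent.T6.H29.SG
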